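import Pool.Agent.TH766.CP.Mix
import Pool.Agent.TH766.MC.NotA1
import Pool.Agent.W619.Y.Unir
import Pool.Agent.W619.Y.LA1

/-!
`A¹`-uniruled varieties: the logarithmic canonical divisor is not pseudo-effective.
-/

set_option autoImplicit false
set_option linter.overlappingInstances false

open FF Module IntermediateField Pool.Agent.W619.PQ Pool.Agent.W619.PL Pool.Agent.W619.TW
  Pool.Agent.W619.X Pool.Agent.W619.Y Pool.Agent.W603.LV

namespace Pool.Agent.TH766.CP

variable {K : Type} [Field K] [Algebra ℂ K] {n : ℕ}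

theorem psef_of_bd {Bd : Place ℂ K → Prop} (hk : IsPsef ℂ K n Bd) :
    Pool.Agent.W602.GT.Psef ℂ K n Bd := by
  obtain ⟨S, hS⟩ := hk
  refine ⟨S, fun N => ?_⟩
  obtain ⟨j, hj, ω, ⟨h1, h2, h3⟩, hD⟩ := hS N
  refine ⟨j, hj, ω, ⟨h1, fun P hP D hD => ?_, fun P hP hB D hD => ?_⟩, hD⟩
  · by_cases hB : Bd P
    · exact h3 P hP hB D fun l f => hD l f
    · refine h2 P hP hB D fun l f hf => ?_
      by_cases hf0 : f = 0
      · rw [hf0, map_zero]
        exact Or.inl rfl
      · have h3 := hD l f
        have h4 : D l f = f * (D l f / f) := by field_simp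
        rw [h4]
        exact P.reg_mul hf h3
  · exact h2 P hP hB D hD

/-- subfields of finite index of finitely generated fields are finitely generated -/
theorem ess_below {E : Type} [Field E] [Algebra ℂ E] [Algebra K E] [IsScalarTower ℂ K E]
    [FiniteDimensional K E] [hK : Algebra.EssFiniteType ℂ E] : Algebra.EssFiniteType ℂ K := by
  have hKF : Algebra.IsAlgebraic K E := inferInstance
  obtain ⟨s, hs⟩ := exists_isTranscendenceBasis ℂ K
  have hfin : Set.Finite s := by
    have h1 : IsTranscendenceBasis ℂ (algebraMap K E ∘ ((↑) : s → K)) := hs.algebraMap_comp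
    have h2 : Algebra.trdeg ℂ E < Cardinal.aleph0 := trdeg_lt_aleph0 ℂ E
    have h3 := h1.cardinalMk_eq_trdeg
    rw [← h3] at h2
    exact Cardinal.lt_aleph0_iff_set_finite.1 h2
  let A : IntermediateField ℂ K := adjoin ℂ s
  have hA : Algebra.EssFiniteType ℂ A := by
    rw [essFiniteType_iff]
    exact ⟨hfin.toFinset, by rw [Set.Finite.coe_toFinset]⟩
  have t1 : IsScalarTower A K E := inferInstance
  have t2 : IsScalarTower ℂ A E := IsScalarTower.of_algebraMap_eq fun x => by
    rw [IsScalarTower.algebraMap_apply ℂ K E, IsScalarTower.algebraMap_apply A K E,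
      ← IsScalarTower.algebraMap_apply ℂ A K]
  have hAF : Algebra.IsAlgebraic A K := by
    have h1 := hs.isAlgebraic_field
    rwa [Subtype.range_coe] at h1
  have hAK : Algebra.IsAlgebraic A E := Algebra.IsAlgebraic.trans A K E
  have hAess : Algebra.EssFiniteType A E := Algebra.EssFiniteType.of_comp ℂ A E
  have hAKfin : Module.Finite A E := Algebra.finite_of_essFiniteType_of_isAlgebraic
  have hAFfin : Module.Finite A K := by
    refine Module.Finite.of_injective
      ((IsScalarTower.toAlgHom A K E).toLinearMap) (algebraMap K E).injective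
  have hAFess : Algebra.EssFiniteType A K := inferInstance
  exact Algebra.EssFiniteType.comp ℂ A K

/-- `A¹`-uniruled varieties: the logarithmic canonical divisor is not pseudo-effective. -/
theorem not_psef_of_a1 (hn : Algebra.trdeg ℂ K = n)
    (Bd : Place ℂ K → Prop) (h : IsA1Uniruled ℂ K n Bd) : ¬ IsPsef ℂ K n Bd := by
  obtain ⟨M, _, _, f, hM, htr, hA⟩ := h
  let _ : Algebra K (RatFunc M) := f.toRingHom.toAlgebra
  have t1 : IsScalarTower ℂ K (RatFunc M) := IsScalarTower.of_algebraMap_eq fun c => by
    change _ = f (algebraMap ℂ K c)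
    rw [f.commutes]
  have hFF : IsFF M (RatFunc M) := by
    refine IsFF.of_finite (f := (RatFunc.X : RatFunc M)) RatFunc.transcendental_X ?_
    rw [RatFunc.adjoin_X]
    exact Module.Finite.of_surjective (Algebra.linearMap (⊤ : IntermediateField M (RatFunc M))
      (RatFunc M)) fun z => ⟨⟨z, trivial⟩, rfl⟩
  have hess0 : Algebra.EssFiniteType M (RatFunc M) := hFF.ess
  have hessR : Algebra.EssFiniteType ℂ (RatFunc M) := Algebra.EssFiniteType.comp ℂ M (RatFunc M)
  have hR : Algebra.trdeg ℂ (RatFunc M) = n := by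
    rw [← trdeg_add_eq ℂ M (A := RatFunc M), hFF.trdeg]
    exact htr
  obtain ⟨y, hy⟩ := exists_fin_basis (k := ℂ) n hn
  have hyR : AlgebraicIndependent ℂ (fun i => f (y i)) := hy.1.map' f.injective
  have hyb : IsTranscendenceBasis ℂ (fun i => f (y i)) := by
    refine hyR.isTranscendenceBasis_of_lift_trdeg_le_of_finite ?_
    rw [hR]
    simp
  have halg : Algebra.IsAlgebraic K (RatFunc M) := by
    have h1 : Algebra.IsAlgebraic (IntermediateField.adjoin ℂ (Set.range fun i => f (y i)))
      (RatFunc M) := hyb.isAlgebraic_field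
    refine ⟨fun z => ?_⟩
    have h2 := h1.isAlgebraic z
    have hle : IntermediateField.adjoin ℂ (Set.range fun i => f (y i)) ≤ f.fieldRange := by
      rw [adjoin_le_iff]
      rintro _ ⟨i, rfl⟩
      exact ⟨y i, rfl⟩
    let e : K ≃ₐ[ℂ] f.fieldRange := AlgEquiv.ofInjectiveField f
    let g : IntermediateField.adjoin ℂ (Set.range fun i => f (y i)) →+* K :=
      (e.symm : f.fieldRange →+* K).comp (inclusion hle).toRingHom
    refine h2.ringHom_of_comp_eq g (RingHom.id _) g.injective ?_
    ext w
    change f (e.symm (inclusion hle w)) = (w : RatFunc M)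
    have h3 : e (e.symm (inclusion hle w)) = inclusion hle w := e.apply_symm_apply _
    exact congrArg Subtype.val h3
  have hfd : FiniteDimensional K (RatFunc M) := by
    have h1 : Algebra.EssFiniteType K (RatFunc M) := Algebra.EssFiniteType.of_comp ℂ K (RatFunc M)
    obtain ⟨s, hs⟩ := IntermediateField.fg_top K (RatFunc M)
    have h2 : FiniteDimensional K (IntermediateField.adjoin K (s : Set (RatFunc M))) :=
      IntermediateField.finiteDimensional_adjoin fun x _ => (halg.isAlgebraic x).isIntegral
    rw [hs] at h2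
    exact h2.equiv IntermediateField.topEquiv.toLinearEquiv
  have hessK : Algebra.EssFiniteType ℂ K := ess_below (E := RatFunc M)
  have hT := pTRANS ℂ K (RatFunc M) n hn (fun y hy => fin_over y hy) Bd
  have hcM : CharZero M := charZero_of_injective_algebraMap (algebraMap ℂ M).injective
  have hXM : Transcendental M (RatFunc.X : RatFunc M) := RatFunc.transcendental_X
  have htopM : M⟮(RatFunc.X : RatFunc M)⟯ = ⊤ := RatFunc.adjoin_X
  obtain ⟨D0, hD0⟩ := Pool.Agent.W602.GT.exists_der (L := M) (fun _ : Unit => (RatFunc.X : RatFunc M))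
    (IsFF.basis hXM) (fun _ => RatFunc.X)
  let δ : Derivation ℂ (RatFunc M) (RatFunc M) := D0.restrictScalars ℂ
  have hδX : δ RatFunc.X = RatFunc.X := hD0 ()
  have hδM : ∀ c : M, δ (algebraMap M (RatFunc M) c) = 0 := fun c => D0.map_algebraMap c
  have htop : (Pool.Agent.W602.GT.consts δ)⟮(RatFunc.X : RatFunc M)⟯ = ⊤ := by
    rw [eq_top_iff]
    intro f _
    have hf : f ∈ M⟮(RatFunc.X : RatFunc M)⟯ := by rw [htopM]; exact mem_top
    induction hf using IntermediateField.adjoin_induction with
    | mem x hx =>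
      rw [Set.mem_singleton_iff] at hx
      rw [hx]
      exact IntermediateField.mem_adjoin_simple_self _ _
    | algebraMap c =>
      exact (Pool.Agent.W602.GT.consts δ)⟮(RatFunc.X : RatFunc M)⟯.algebraMap_mem
        ⟨algebraMap M (RatFunc M) c, hδM c⟩
    | add x y _ _ hx hy => exact add_mem (hx mem_top) (hy mem_top)
    | inv x _ hx => exact inv_mem (hx mem_top)
    | mul x y _ _ hx hy => exact mul_mem (hx mem_top) (hy mem_top)
  refine fun h3 => Pool.Agent.W602.GT.not_psef hR δ RatFunc.X_ne_zero hδX htop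
    (fun P h1 h2 hB => ?_) (psef_of_bd (hT.1 h3))
  obtain ⟨v, e, hwv, hv⟩ := hB
  let w : Place M (RatFunc M) :=
    { ord := P.ord
      ord_zero := P.ord_zero
      ord_mul := fun {f g} hf hg => P.ord_mul hf hg
      ord_add := fun {f g} hf hg hfg => P.ord_add hf hg hfg
      ord_const := fun {c} hc => h1 _ (hδM c) ((map_ne_zero _).2 hc)
      surj := P.surj }
  exact hA w (Or.inr h2) v e hwv.1 hwv.2 hv

theorem trdeg_fixed {L : Type} [Field L] [Algebra ℂ L] {r : ℕ} (hn : Algebra.trdeg ℂ L = r)
    (G : Subgroup (L ≃ₐ[ℂ] L)) [Finite G] : Algebra.trdeg ℂ (fixedField G) = r := by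
  have hfinL : FiniteDimensional (fixedField G) L := by
    have hGal : IsGaloisGroup G (fixedField G) L := isGaloisGroup_fixed G
    exact IsGaloisGroup.finiteDimensional G (fixedField G) L
  rw [← hn, ← trdeg_add_eq ℂ (fixedField G) (A := L),
    trdeg_eq_zero (R := fixedField G) (A := L), add_zero]

/-- if `K + D` is not pseudo-effective, then the logarithmic Kodaira dimension is `-∞` -/
theorem logKodairaNeg_of_not_psef {Bd : Place ℂ K → Prop} (h : ¬ IsPsef ℂ K n Bd) :
    LogKodairaNeg ℂ K n Bd := by
  intro m hm ω h1 h2 h3 D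
  by_contra hD
  refine h (psef_of_eff ⟨m, hm, ω, ⟨h1, fun v hv hB D hD => dom_of_reg (h2 v hv hB D hD),
    fun v hv hB D hD => dom_of_reg (h3 v hv hB D hD)⟩, D, hD⟩)

end Pool.Agent.TH766.CP
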