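import Pool.Agent.TH766.MC.A1
import Pool.Agent.TH766.MC.Fu
import Pool.Agent.W619.Y.Main

/-!
Comparison of the definitions in `W602.GT` and `W619`, for products of covers of arrangements and
curves.
-/

set_option autoImplicit false
set_option linter.overlappingInstances false

open FF Module IntermediateField Pool.Agent.W602.Cov Pool.Agent.W602.Cov.Cover
open Pool.Agent.TH766.MC

namespace Pool.Agent.TH766.CP

variable {K : Type} [Field K] [Algebra ℂ K] {n q r : ℕ}

theorem ess_of_ff (X : Cover n q r) {x : Fin (n + 1) → K} {y : Fin r → K}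
    (hK : X.FunctionField K x y) : Algebra.EssFiniteType ℂ K := by
  classical
  let e := Pi.basisFun ℂ (Fin (n + 1))
  have h1 := Pool.Agent.W427.CG.GNR.main n q r X e.dualBasis e.dualBasis.linearIndependent K x y hK
    1 one_ne_zero
  have h2 : (⊤ : IntermediateField ℂ K).FG := by
    rw [← h1]
    exact fg_adjoin_of_finite ((Set.finite_range _).union (Set.finite_range _))
  have h3 : Algebra.EssFiniteType ℂ (⊤ : IntermediateField ℂ K) :=
    (IntermediateField.essFiniteType_iff).2 h2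
  exact (Algebra.EssFiniteType.iff_of_algEquiv (IntermediateField.topEquiv (F := ℂ) (E := K))).1 h3

theorem kodTr_of {h : ℕ} (hk : Pool.Agent.W602.GT.KodGe ℂ K n (fun _ => False) h) :
    Pool.Agent.W619.Y.KodTr ℂ K n h := by
  obtain ⟨N, hN, ω, hω, D, hD, hD'⟩ := hk
  refine ⟨N, hN, ω, fun l => ⟨(hω l).1, fun v hv _ E hE => ?_, fun v _ h => h.elim⟩, D, ?_, hD'⟩
  · have h1 := (hω l).2.2 v hv (fun h => h) E hE
    rcases h1 with h1 | h1
    · exact Or.inl h1
    · exact Or.inr ⟨1, Finset.mem_singleton_self 1, one_ne_zero, by simpa using h1⟩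
  · intro l
    refine Fin.cases hD (fun i => ?_) l
    have h1 := hD'.ne_zero i
    intro h2
    rw [h2, zero_div] at h1
    exact h1 rfl

theorem psef_of (hk : Pool.Agent.W619.TW.IsPsef ℂ K n (fun _ => False)) :
    Pool.Agent.W602.GT.Psef ℂ K n (fun _ => False) := by
  obtain ⟨S, hS⟩ := hk
  refine ⟨S, fun N => ?_⟩
  obtain ⟨j, hj, ω, ⟨h1, h2, -⟩, hD⟩ := hS N
  refine ⟨j, hj, ω, ⟨h1, fun P hP D hD => ?_, fun P hP _ D hD => ?_⟩, hD⟩
  · refine h2 P hP (fun h => h) D fun l f hf => ?_
    by_cases hf0 : f = 0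
    · rw [hf0, map_zero]
      exact Or.inl rfl
    · have h3 := hD l f
      have h4 : D l f = f * (D l f / f) := by field_simp
      rw [h4]
      exact P.reg_mul hf h3
  · exact h2 P hP (fun h => h) D hD

theorem uniruled_of (X : Cover n q r) (hF : X.Free) {x : Fin (n + 1) → K} {y : Fin r → K}
    (hK : X.FunctionField K x y) (h : Reducible X.ℓ) :
    Pool.Agent.W619.PQ.IsUniruled ℂ K n := by
  have hF' : X.FreeU ∅ := fun v hv => hF v hv.1
  have hfp : FreePart X.ℓ ((∅ : Finset (Fin q)) : Set (Fin q)) := by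
    obtain ⟨V₁, V₂, a, b, c, d⟩ := h
    exact ⟨V₁, V₂, a, b, c, d, fun i hi => absurd hi (by simp)⟩
  obtain ⟨M, h1, h2, f, h3, h4, -⟩ := a1_of_freePart X (prim_of_freeU X hF') hK hfp
  exact ⟨M, h1, h2, h3, h4, ⟨f⟩⟩

end Pool.Agent.TH766.CP
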